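import Mathlib
import Pool.Agent.V1116.CoxSign

/-!
# Sign extensions of Coxeter groups are exact
-/

open Function Pool.Agent.V1116.CoxSign

namespace Pool.Agent.Results.MP_07fa45_al.SignExtensionExact

universe u v

variable {B : Type u}

/-- The relators of the group `W'`, in the free group on `Option B`; the generator `some s` is
`s ∈ S` and the generator `none` is `q`. -/
inductive Relator (M : CoxeterMatrix B) (c : B → B → ℤˣ) : FreeGroup (Option B) → Prop
  | gen_sq (s : B) : Relator M c (FreeGroup.of (some s) ^ 2)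
  | q_sq : Relator M c (FreeGroup.of none ^ 2)
  | comm (s : B) : Relator M c (FreeGroup.of none * FreeGroup.of (some s) *
      (FreeGroup.of none)⁻¹ * (FreeGroup.of (some s))⁻¹)
  | pos (s t : B) : s ≠ t → M s t ≠ 0 → c s t = 1 →
      Relator M c ((FreeGroup.of (some s) * FreeGroup.of (some t)) ^ M s t)
  | neg (s t : B) : s ≠ t → M s t ≠ 0 → c s t = -1 →
      Relator M c ((FreeGroup.of (some s) * FreeGroup.of (some t)) ^ M s t *
        (FreeGroup.of none)⁻¹)

/-- The group `W'`. -/
abbrev Ext (M : CoxeterMatrix B) (c : B → B → ℤˣ) : Type u :=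
  PresentedGroup {r | Relator M c r}

/-- The element `q` of `W'`. -/
def q (M : CoxeterMatrix B) (c : B → B → ℤˣ) : Ext M c := PresentedGroup.of none

/-- The generator `s` of `W'`. -/
def gen (M : CoxeterMatrix B) (c : B → B → ℤˣ) (s : B) : Ext M c := PresentedGroup.of (some s)

/-- Sign choices (`M s t = 0` encodes `m_{s,t} = ∞`). -/
structure IsSignChoice {W : Type v} [Group W] {M : CoxeterMatrix B} (cs : CoxeterSystem M W)
    (c : B → B → ℤˣ) : Prop where
  conj : ∀ s t s' t' : B, s ≠ t → M s t ≠ 0 → s' ≠ t' → M s' t' ≠ 0 →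
    (∃ g : W, g * cs.simple s * g⁻¹ = cs.simple s' ∧ g * cs.simple t * g⁻¹ = cs.simple t') →
    c s t = c s' t'
  symm : ∀ s t : B, s ≠ t → M s t ≠ 0 → c s t = c t s

section Presentation

variable {M : CoxeterMatrix B} {c : B → B → ℤˣ}

theorem lift_relator {G : Type*} [Group G] (f : Option B → G) (h1 : ∀ s, f (some s) ^ 2 = 1)
    (h2 : f none ^ 2 = 1) (h3 : ∀ s, Commute (f none) (f (some s)))
    (h4 : ∀ s t, s ≠ t → M s t ≠ 0 → c s t = 1 → (f (some s) * f (some t)) ^ M s t = 1)
    (h5 : ∀ s t, s ≠ t → M s t ≠ 0 → c s t = -1 → (f (some s) * f (some t)) ^ M s t = f none) :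
    ∀ r ∈ {r | Relator M c r}, FreeGroup.lift f r = 1 := by
  intro r hr
  induction hr with
  | gen_sq s => rw [map_pow, FreeGroup.lift_apply_of]; exact h1 s
  | q_sq => rw [map_pow, FreeGroup.lift_apply_of]; exact h2
  | comm s =>
    rw [map_mul, map_mul, map_mul, map_inv, map_inv, FreeGroup.lift_apply_of,
      FreeGroup.lift_apply_of, (h3 s).eq, mul_inv_cancel_right, mul_inv_cancel]
  | pos s t hst hM hc =>
    rw [map_pow, map_mul, FreeGroup.lift_apply_of, FreeGroup.lift_apply_of]
    exact h4 s t hst hM hc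
  | neg s t hst hM hc =>
    rw [map_mul, map_pow, map_mul, map_inv, FreeGroup.lift_apply_of, FreeGroup.lift_apply_of,
      FreeGroup.lift_apply_of, h5 s t hst hM hc, mul_inv_cancel]

variable {W : Type v} [Group W] (cs : CoxeterSystem M W)

/-- The surjection `π : W' → W`, `s ↦ s`, `q ↦ 1`. -/
def proj (c : B → B → ℤˣ) : Ext M c →* W :=
  PresentedGroup.toGroup (f := fun o => o.elim 1 cs.simple)
    (lift_relator _ (fun s => cs.simple_sq s) (one_pow 2) (fun _ => Commute.one_left _)
      (fun s t _ _ _ => cs.simple_mul_simple_pow s t)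
      (fun s t _ _ _ => cs.simple_mul_simple_pow s t))

theorem proj_gen (s : B) : proj cs c (gen M c s) = cs.simple s := PresentedGroup.toGroup.of _

theorem proj_q : proj cs c (q M c) = 1 := PresentedGroup.toGroup.of _

theorem rel_eq_one {r : FreeGroup (Option B)} (hr : Relator M c r) :
    (PresentedGroup.mk {r | Relator M c r} r) = 1 :=
  PresentedGroup.one_of_mem hr

theorem q_sq : q M c ^ 2 = 1 := by
  have := rel_eq_one (M := M) (c := c) Relator.q_sq
  rwa [map_pow] at this

theorem gen_sq (s : B) : gen M c s ^ 2 = 1 := by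
  have := rel_eq_one (M := M) (c := c) (Relator.gen_sq s)
  rwa [map_pow] at this

theorem q_comm (s : B) : Commute (q M c) (gen M c s) := by
  have := rel_eq_one (M := M) (c := c) (Relator.comm s)
  rw [map_mul, map_mul, map_mul, map_inv, map_inv, mul_inv_eq_one, mul_inv_eq_iff_eq_mul] at this
  exact this

theorem gen_pow (s t : B) (hst : s ≠ t) (hM : M s t ≠ 0) :
    (gen M c s * gen M c t) ^ M s t = 1 ∨ (gen M c s * gen M c t) ^ M s t = q M c := by
  rcases Int.units_eq_one_or (c s t) with h | h
  · left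
    have := rel_eq_one (M := M) (c := c) (Relator.pos s t hst hM h)
    rwa [map_pow, map_mul] at this
  · right
    have := rel_eq_one (M := M) (c := c) (Relator.neg s t hst hM h)
    rw [map_mul, map_pow, map_mul, map_inv, mul_inv_eq_one] at this
    exact this

theorem q_central (x : Ext M c) : Commute (q M c) x := by
  have hx : x ∈ Subgroup.closure (Set.range (PresentedGroup.of (rels := {r | Relator M c r}))) := by
    rw [PresentedGroup.closure_range_of]; trivial
  induction hx using Subgroup.closure_induction with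
  | mem y hy =>
    obtain ⟨o, rfl⟩ := hy
    cases o with
    | none => exact Commute.refl _
    | some s => exact q_comm s
  | one => exact Commute.one_right _
  | mul y z _ _ hy hz => exact hy.mul_right hz
  | inv y _ hy => exact hy.inv_right

theorem q_pow_mod (n : ℕ) : q M c ^ (n % 2) = q M c ^ n := by
  conv_rhs => rw [← Nat.mod_add_div n 2, pow_add, pow_mul, q_sq, one_pow, mul_one]

/-- The homomorphism `ι : ℤ/2 → W'` sending the generator to `q`. -/
def iota (M : CoxeterMatrix B) (c : B → B → ℤˣ) : Multiplicative (ZMod 2) →* Ext M c where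
  toFun x := q M c ^ (Multiplicative.toAdd x).val
  map_one' := by
    show q M c ^ (0 : ZMod 2).val = 1
    simp
  map_mul' := by
    intro x y
    have key : ∀ a b : ZMod 2, q M c ^ (a + b).val = q M c ^ a.val * q M c ^ b.val := by
      intro a b
      rw [← pow_add, ZMod.val_add]
      exact q_pow_mod (a.val + b.val)
    exact key _ _

theorem iota_one : iota M c (Multiplicative.ofAdd 1) = q M c := by
  show q M c ^ (1 : ZMod 2).val = q M c
  rw [ZMod.val_one, pow_one]

theorem proj_surjective : Surjective (proj cs c) := by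
  intro w
  induction w using cs.simple_induction with
  | simple s => exact ⟨gen M c s, proj_gen cs s⟩
  | one => exact ⟨1, map_one _⟩
  | mul x y hx hy =>
    obtain ⟨a, rfl⟩ := hx
    obtain ⟨b, rfl⟩ := hy
    exact ⟨a * b, map_mul _ _ _⟩

theorem range_eq_ker : (iota M c).range = (proj cs c).ker := by
  apply le_antisymm
  · rintro _ ⟨x, rfl⟩
    show proj cs c (q M c ^ _) = 1
    rw [map_pow, proj_q, one_pow]
  · have hnormal : (Subgroup.zpowers (q M c)).Normal := by
      constructor
      intro x hx g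
      obtain ⟨n, rfl⟩ := hx
      have : g * q M c ^ n * g⁻¹ = q M c ^ n := by
        rw [← ((q_central g).zpow_left n).eq, mul_inv_cancel_right]
      simpa only [this] using ⟨n, rfl⟩
    let φ : Ext M c →* Ext M c ⧸ Subgroup.zpowers (q M c) := QuotientGroup.mk' _
    have hφq : φ (q M c) = 1 := by
      rw [← MonoidHom.mem_ker, QuotientGroup.ker_mk']
      exact Subgroup.mem_zpowers _
    have hlift : M.IsLiftable (fun s => φ (gen M c s)) := by
      intro s t
      rw [← map_mul, ← map_pow]
      by_cases hst : s = t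
      · subst hst
        rw [M.diagonal, pow_one, ← pow_two, gen_sq, map_one]
      · by_cases hM : M s t = 0
        · rw [hM, pow_zero, map_one]
        · rcases gen_pow (c := c) s t hst hM with h | h
          · rw [h, map_one]
          · rw [h, hφq]
    let ψ : W →* Ext M c ⧸ Subgroup.zpowers (q M c) := cs.lift ⟨_, hlift⟩
    have hcomp : ψ.comp (proj cs c) = φ := by
      apply PresentedGroup.ext
      intro o
      cases o with
      | none =>
        show ψ (proj cs c (q M c)) = φ (q M c)
        rw [proj_q, map_one, hφq]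
      | some s =>
        show ψ (proj cs c (gen M c s)) = φ (gen M c s)
        rw [proj_gen]
        exact cs.lift_apply_simple hlift s
    intro x hx
    have h1 : φ x = 1 := by
      rw [← hcomp, MonoidHom.comp_apply, MonoidHom.mem_ker.mp hx, map_one]
    rw [← MonoidHom.mem_ker, QuotientGroup.ker_mk'] at h1
    have h2 : Subgroup.zpowers (q M c) ≤ (iota M c).range := by
      rw [Subgroup.zpowers_le]
      exact ⟨_, iota_one⟩
    exact h2 h1

end Presentation

section Main

variable {M : CoxeterMatrix B} {W : Type v} [Group W] (cs : CoxeterSystem M W)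

/-- Commuting simple reflections are distinct elements of `W`. -/
theorem simple_ne {s t : B} (hM : M s t = 2) : cs.simple s ≠ cs.simple t := by
  obtain ⟨A, _, e, hne, hee, h1, h2⟩ := exists_clifford M (fun _ _ => True) (by simp)
  have hst : s ≠ t := by
    rintro rfl
    rw [M.diagonal] at hM
    omega
  have hlift : M.IsLiftable (fun s => MulAut.conj (e s)) := by
    intro a b
    rw [← map_mul, ← map_pow]
    by_cases hab : a = b
    · subst hab
      rw [M.diagonal, pow_one, hee, map_one]
    · by_cases hM : M a b = 0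
      · rw [hM, pow_zero, map_one]
      · rw [h1 a b hab hM (Or.inr trivial)]
        ext x
        simp
  intro h
  have h3 := congrArg (cs.lift ⟨_, hlift⟩) h
  rw [cs.lift_apply_simple hlift, cs.lift_apply_simple hlift] at h3
  have h4 := DFunLike.congr_fun h3 (e t)
  simp only [MulAut.conj_apply, mul_inv_cancel_right] at h4
  have h5 : e s * e t = e t * e s := mul_inv_eq_iff_eq_mul.mp h4
  have h6 := h1 s t hst (by omega) (Or.inl hM)
  rw [hM, pow_two] at h6
  have h7 : e s * e t * (e s * e t) = 1 := by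
    calc e s * e t * (e s * e t) = e s * e t * (e t * e s) := by rw [h5]
      _ = e s * (e t * e t) * e s := by simp only [mul_assoc]
      _ = 1 := by rw [hee, mul_one, hee]
  rw [h7] at h6
  apply hne
  have := congrArg Units.val h6
  simpa using this.symm

variable {c : B → B → ℤˣ}

open Classical in
/-- The pairs of commuting reflections whose sign has to be changed. -/
noncomputable def kf (c : B → B → ℤˣ) (g h : W) : ℕ :=
  if g ≠ h ∧ ∃ (s t : B) (x : W), s ≠ t ∧ M s t = 2 ∧ c s t = 1 ∧ g = x⁻¹ * cs.simple s * x ∧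
    h = x⁻¹ * cs.simple t * x then 1 else 0

open Classical in
theorem kf_symm (hc : IsSignChoice cs c) (g h : W) : kf cs c g h = kf cs c h g := by
  have key : ∀ g h : W, (g ≠ h ∧ ∃ (s t : B) (x : W), s ≠ t ∧ M s t = 2 ∧ c s t = 1 ∧
      g = x⁻¹ * cs.simple s * x ∧ h = x⁻¹ * cs.simple t * x) → (h ≠ g ∧ ∃ (s t : B) (x : W),
      s ≠ t ∧ M s t = 2 ∧ c s t = 1 ∧ h = x⁻¹ * cs.simple s * x ∧ g = x⁻¹ * cs.simple t * x) := by
    rintro g h ⟨hgh, s, t, x, hst, hM, hcst, hg, hh⟩
    exact ⟨hgh.symm, t, s, x, hst.symm, by rw [M.symmetric]; exact hM,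
      by rw [← hc.symm s t hst (by omega)]; exact hcst, hh, hg⟩
  unfold kf
  rw [if_congr ⟨key g h, key h g⟩ rfl rfl]

open Classical in
theorem kf_self (g : W) : kf cs c g g = 0 := by
  unfold kf
  rw [if_neg]
  rintro ⟨h, -⟩
  exact h rfl

open Classical in
theorem kf_conj (y g h : W) : kf cs c (y⁻¹ * g * y) (y⁻¹ * h * y) = kf cs c g h := by
  have key : ∀ y g h : W, (g ≠ h ∧ ∃ (s t : B) (x : W), s ≠ t ∧ M s t = 2 ∧ c s t = 1 ∧
      g = x⁻¹ * cs.simple s * x ∧ h = x⁻¹ * cs.simple t * x) → (y⁻¹ * g * y ≠ y⁻¹ * h * y ∧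
      ∃ (s t : B) (x : W), s ≠ t ∧ M s t = 2 ∧ c s t = 1 ∧ y⁻¹ * g * y = x⁻¹ * cs.simple s * x ∧
      y⁻¹ * h * y = x⁻¹ * cs.simple t * x) := by
    rintro y g h ⟨hgh, s, t, x, hst, hM, hcst, hg, hh⟩
    refine ⟨fun e => hgh (mul_left_cancel (mul_right_cancel e)), s, t, x * y, hst, hM, hcst,
      ?_, ?_⟩
    · rw [hg]; group
    · rw [hh]; group
  unfold kf
  apply if_congr _ rfl rfl
  constructor
  · intro H
    have := key y⁻¹ _ _ H
    have e : ∀ z : W, y⁻¹⁻¹ * (y⁻¹ * z * y) * y⁻¹ = z := by intro z; group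
    rwa [e, e] at this
  · exact key y g h

open Classical in
theorem kf_simple (hc : IsSignChoice cs c) {s t : B} (hst : s ≠ t) (hM : M s t = 2) :
    kf cs c (cs.simple s) (cs.simple t) = if c s t = 1 then 1 else 0 := by
  unfold kf
  apply if_congr _ rfl rfl
  constructor
  · rintro ⟨-, s', t', x, hst', hM', hcst, hg, hh⟩
    rw [← hcst]
    symm
    apply hc.conj s' t' s t hst' (by omega) hst (by omega)
    exact ⟨x⁻¹, by rw [hg, inv_inv], by rw [hh, inv_inv]⟩
  · intro h
    exact ⟨simple_ne cs hM, s, t, 1, hst, hM, h, by simp, by simp⟩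

open Classical in
theorem N_eq_of_two (hc : IsSignChoice cs c) {s t : B} (hst : s ≠ t) (hM : M s t = 2) :
    N (kf cs c) (cs.simple s) (cs.simple t) (M s t) = if c s t = 1 then 1 else 0 := by
  rw [← kf_simple cs hc hst hM, hM]
  have h1 : cs.simple t * cs.simple s * cs.simple t = cs.simple s := by
    have h := cs.simple_mul_simple_pow s t
    rw [hM, pow_two] at h
    have h2 : cs.simple s * (cs.simple s * cs.simple t * (cs.simple s * cs.simple t)) =
        cs.simple s := by rw [h, mul_one]
    simpa only [mul_assoc, cs.simple_mul_simple_cancel_left] using h2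
  unfold N
  simp [Finset.sum_range_succ, h1]

theorem Z_sq {W A : Type*} [Ring A] : (Z : Equiv.Perm (Y W A)) * Z = 1 := by
  ext p : 1
  rw [Equiv.Perm.mul_apply, Z_apply, Z_apply]
  simp

theorem Z_pow {W A : Type*} [Ring A] (n : ℕ) :
    (Z : Equiv.Perm (Y W A)) ^ n = if Even n then 1 else Z := by
  rcases Nat.even_or_odd n with h | h
  · rw [if_pos h]
    obtain ⟨k, rfl⟩ := h
    rw [← two_mul, pow_mul, pow_two, Z_sq, one_pow]
  · rw [if_neg (Nat.not_even_iff_odd.mpr h)]
    obtain ⟨k, rfl⟩ := h
    rw [pow_succ, pow_mul, pow_two, Z_sq, one_pow, one_mul]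

theorem q_ne_one (hc : IsSignChoice cs c) : q M c ≠ 1 := by
  classical
  -- the sign function for the Clifford part
  let n : B → B → ℕ := fun s t => N (kf cs c) (cs.simple s) (cs.simple t) (M s t)
  let ε0 : B → B → Prop := fun s t => (-1 : ℤˣ) ^ n s t * c s t = -1
  let ε : B → B → Prop := fun s t => if WellOrderingRel s t then ε0 s t else ε0 t s
  have hε : ∀ s t, ε s t ↔ ε t s := by
    intro s t
    show (if WellOrderingRel s t then ε0 s t else ε0 t s) ↔
      (if WellOrderingRel t s then ε0 t s else ε0 s t)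
    rcases trichotomous_of (WellOrderingRel (α := B)) s t with h | h | h
    · rw [if_pos h, if_neg (asymm_of _ h)]
    · subst h; rfl
    · rw [if_neg (asymm_of _ h), if_pos h]
  obtain ⟨A, _, e, hne, hee, h1, h2⟩ := exists_clifford M ε hε
  -- the bilinear function for the reflection part
  let β : W → W → ZMod 2 := fun g h => if WellOrderingRel g h then (kf cs c g h : ZMod 2) else 0
  have hβ : ∀ g, β g g = 0 := by
    intro g
    show (if WellOrderingRel g g then (kf cs c g g : ZMod 2) else 0) = 0
    rw [if_neg (irrefl_of _ g)]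
  have hβk : ∀ g h, β g h + β h g = (kf cs c g h : ZMod 2) := by
    intro g h
    show (if WellOrderingRel g h then (kf cs c g h : ZMod 2) else 0) +
      (if WellOrderingRel h g then (kf cs c h g : ZMod 2) else 0) = _
    rcases trichotomous_of (WellOrderingRel (α := W)) g h with h' | h' | h'
    · rw [if_pos h', if_neg (asymm_of _ h'), add_zero]
    · subst h'
      rw [if_neg (irrefl_of _ g), kf_self]; simp
    · rw [if_neg (asymm_of _ h'), if_pos h', zero_add, kf_symm cs hc]
  let H := Equiv.Perm (Y W A)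
  let Xf : W → H := X β hβ
  let Zf : H := Z
  let L : B → H := fun s => Lm (e s)
  have hXX : ∀ r, Xf r * Xf r = 1 := X_mul_self β hβ
  have hZX : ∀ r, Commute Zf (Xf r) := commute_Z_X β hβ
  have hXc : ∀ a b, Xf a * Xf b = Xf b * Xf a * Zf ^ kf cs c a b := X_comm β hβ _ hβk
  have hLX : ∀ s r, Commute (L s) (Xf r) := fun s r => commute_Lm_X β hβ (e s) r
  have hLL : ∀ s, L s * L s = 1 := by
    intro s
    show Lm (e s) * Lm (e s) = 1
    rw [← Lm_mul, hee, Lm_one]
  have hss : ∀ s, cs.simple s * cs.simple s = 1 := cs.simple_mul_simple_self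
  let Tp : B → Equiv.Perm (W × H) := fun s =>
    (T_involutive Xf hXX (hss s) (hLL s) (hLX s)).toPerm
  let Qp : Equiv.Perm (W × H) := Equiv.prodCongr (Equiv.refl W) (Equiv.mulLeft Zf)
  have hQ : ∀ w h, Qp (w, h) = (w, Zf * h) := fun _ _ => rfl
  have hT : ∀ s w h, Tp s (w, h) = (cs.simple s * w,
      L s * Xf (w⁻¹ * cs.simple s * w) * h) := fun _ _ _ => rfl
  have hTT : ∀ s, Tp s * Tp s = 1 := by
    intro s
    apply Equiv.ext
    exact T_involutive Xf hXX (hss s) (hLL s) (hLX s)
  -- the main computation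
  have hTpow : ∀ s t w h, ((Tp s * Tp t) ^ M s t) (w, h) =
      (w, (L s * L t) ^ M s t * Zf ^ n s t * h) := by
    intro s t w h
    rw [← Equiv.Perm.iterate_eq_pow]
    exact T_iterate_order Xf Zf (kf cs c) hXX hZX hXc (kf_conj cs) (hss s) (hss t) (hLX s)
      (hLX t) w h (M s t) (cs.simple_mul_simple_pow s t)
  have hLpow : ∀ s t, (L s * L t) ^ M s t = Lm ((e s * e t) ^ M s t) := by
    intro s t
    rw [Lm_pow, Lm_mul]
  have hsign : ∀ s t, s ≠ t → M s t ≠ 0 → WellOrderingRel s t →
      (L s * L t) ^ M s t * Zf ^ n s t = if c s t = 1 then 1 else Zf := by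
    intro s t hst hM hw
    have hZZ : Zf * Zf = 1 := Z_sq
    have hεst : ε s t ↔ ε0 s t := by
      show (if WellOrderingRel s t then ε0 s t else ε0 t s) ↔ _
      rw [if_pos hw]
    have hZp : Zf ^ n s t = if Even (n s t) then 1 else Zf := Z_pow _
    rw [hLpow, hZp]
    by_cases hM2 : M s t = 2
    · rw [h1 s t hst hM (Or.inl hM2), Lm_neg_one]
      have hn : n s t = if c s t = 1 then 1 else 0 := N_eq_of_two cs hc hst hM2
      show Zf * _ = _
      by_cases hcst : c s t = 1
      · rw [hn, if_pos hcst, if_pos hcst, if_neg (by decide), hZZ]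
      · rw [hn, if_neg hcst, if_neg hcst, if_pos (by decide), mul_one]
    · by_cases hε1 : ε s t
      · rw [h1 s t hst hM (Or.inr hε1), Lm_neg_one]
        have h3 : (-1 : ℤˣ) ^ n s t * c s t = -1 := hεst.mp hε1
        show Zf * _ = _
        rcases Nat.even_or_odd (n s t) with hev | hodd
        · rw [hev.neg_one_pow, one_mul] at h3
          rw [if_pos hev, if_neg (by rw [h3]; decide), mul_one]
        · rw [hodd.neg_one_pow, neg_one_mul, neg_inj] at h3
          rw [if_neg (Nat.not_even_iff_odd.mpr hodd), if_pos h3, hZZ]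
      · rw [h2 s t hst hM (not_or.mpr ⟨hM2, hε1⟩), Lm_one, one_mul]
        have h3 : ¬ (-1 : ℤˣ) ^ n s t * c s t = -1 := fun h => hε1 (hεst.mpr h)
        rcases Nat.even_or_odd (n s t) with hev | hodd
        · rw [hev.neg_one_pow, one_mul] at h3
          rcases Int.units_eq_one_or (c s t) with h4 | h4
          · rw [if_pos hev, if_pos h4]
          · exact absurd h4 h3
        · rw [hodd.neg_one_pow, neg_one_mul, neg_inj] at h3
          rw [if_neg (Nat.not_even_iff_odd.mpr hodd), if_neg h3]
  have hrel0 : ∀ s t, s ≠ t → M s t ≠ 0 → WellOrderingRel s t →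
      (Tp s * Tp t) ^ M s t = if c s t = 1 then 1 else Qp := by
    intro s t hst hM hw
    apply Equiv.ext
    rintro ⟨w, h⟩
    rw [hTpow, hsign s t hst hM hw]
    by_cases hcst : c s t = 1
    · rw [if_pos hcst, if_pos hcst, one_mul]; rfl
    · rw [if_neg hcst, if_neg hcst]; rfl
  have hQQ : Qp * Qp = 1 := by
    apply Equiv.ext
    rintro ⟨w, h⟩
    rw [Equiv.Perm.mul_apply, hQ, hQ, ← mul_assoc]
    have hZZ : Zf * Zf = 1 := Z_sq
    rw [hZZ, one_mul]; rfl
  have hrel : ∀ s t, s ≠ t → M s t ≠ 0 → (Tp s * Tp t) ^ M s t = if c s t = 1 then 1 else Qp := by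
    intro s t hst hM
    rcases trichotomous_of (WellOrderingRel (α := B)) s t with h | h | h
    · exact hrel0 s t hst hM h
    · exact absurd h hst
    · have h3 := hrel0 t s hst.symm (by rw [M.symmetric]; exact hM) h
      have h4 : Tp s * Tp t = (Tp t * Tp s)⁻¹ := by
        rw [mul_inv_rev, inv_eq_of_mul_eq_one_left (hTT s), inv_eq_of_mul_eq_one_left (hTT t)]
      rw [h4, inv_pow, M.symmetric s t, h3, hc.symm s t hst hM]
      by_cases hcst : c t s = 1
      · rw [if_pos hcst, inv_one]
      · rw [if_neg hcst]; exact inv_eq_of_mul_eq_one_left hQQ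
  -- the homomorphism
  let f : Option B → Equiv.Perm (W × H) := fun o => o.elim Qp Tp
  have hf := lift_relator (M := M) (c := c) f (fun s => by rw [pow_two]; exact hTT s)
    (by rw [pow_two]; exact hQQ)
    (fun s => by
      show Qp * Tp s = Tp s * Qp
      apply Equiv.ext
      rintro ⟨w, h⟩
      rw [Equiv.Perm.mul_apply, Equiv.Perm.mul_apply, hQ, hT, hT, hQ]
      have c1 : Commute Zf (L s) := commute_Z_Lm (e s)
      have c2 : Commute Zf (Xf (w⁻¹ * cs.simple s * w)) := hZX _
      have c3 := c1.mul_right c2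
      apply Prod.ext
      · rfl
      · show Zf * (L s * Xf (w⁻¹ * cs.simple s * w) * h) =
          L s * Xf (w⁻¹ * cs.simple s * w) * (Zf * h)
        rw [← mul_assoc, c3.eq, mul_assoc])
    (fun s t hst hM hcst => by
      show (Tp s * Tp t) ^ M s t = 1
      rw [hrel s t hst hM, if_pos hcst])
    (fun s t hst hM hcst => by
      show (Tp s * Tp t) ^ M s t = Qp
      rw [hrel s t hst hM, if_neg (by rw [hcst]; decide)])
  intro hq
  have h3 := congrArg (PresentedGroup.toGroup hf) hq
  rw [map_one] at h3
  have h4 : PresentedGroup.toGroup hf (q M c) = Qp := PresentedGroup.toGroup.of hf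
  rw [h4] at h3
  have h5 := congrArg (fun g : Equiv.Perm (W × H) => g (1, 1)) h3
  have h6 : Zf * 1 = (1 : H) := congrArg Prod.snd h5
  rw [mul_one] at h6
  have h7 := congrArg (fun g : H => g (0, 1)) h6
  have h8 : -(1 : A) = 1 := congrArg Prod.snd h7
  exact hne h8

/-- **Theorem.** For every Coxeter system `(W, S)` (of arbitrary, possibly infinite, rank) and
every sign choice `c` the sequence `1 → ℤ/2 → W' → W → 1` is exact: `ι` is injective, its range is
the kernel of `π`, and `π` is surjective. -/
theorem result {B : Type u} {M : CoxeterMatrix B} {W : Type v} [Group W]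
    (cs : CoxeterSystem M W) (c : B → B → ℤˣ) (hc : IsSignChoice cs c) :
    Injective (iota M c) ∧ (iota M c).range = (proj cs c).ker ∧ Surjective (proj cs c) := by
  refine ⟨?_, range_eq_ker cs, proj_surjective cs⟩
  rw [← MonoidHom.ker_eq_bot_iff, Subgroup.eq_bot_iff_forall]
  intro x hx
  have key : ∀ a : ZMod 2, iota M c (Multiplicative.ofAdd a) = 1 → a = 0 := by
    intro a ha
    fin_cases a
    · rfl
    · exact absurd (iota_one.symm.trans ha) (q_ne_one cs hc)
  exact congrArg Multiplicative.ofAdd (key _ hx)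

end Main

end Pool.Agent.Results.MP_07fa45_al.SignExtensionExact
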